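import Pool.Agent.Lib.helper21.Weih

set_option autoImplicit false

/-! The Weihrauch degrees and the power set of the reals have chains of the same sizes. -/

namespace Pool.Agent.Results.MP_d0967d_lc.Chains

open Cardinal Pool.Agent.Lib.helper21.Wh

/-- the order of the Weihrauch degrees -/
def LeD (a b : Quotient st) : Prop := ∃ f g : Pb, Quotient.mk st f = a ∧ Quotient.mk st g = b ∧ Le f g

theorem leD_mk {f g : Pb} : LeD (Quotient.mk st f) (Quotient.mk st g) ↔ Le f g :=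
  ⟨fun ⟨_, _, a, b, c⟩ => (Quotient.exact a).2.trans (c.trans (Quotient.exact b).1),
    fun h => ⟨f, g, rfl, rfl, h⟩⟩

theorem re_U (e : ℕ) : REPred (U e) :=
  (Nat.Partrec.Code.eval_part.comp (Computable.const _) Computable.encode).dom_re

theorem le_of_sub {f g : Pb} (h : ∀ p, (f p).Nonempty → (g p).Nonempty ∧ g p ⊆ f p) : Le f g :=
  .mk op_id (op_id.pj 1) fun p a => ⟨p, is_gr p, (h p a).1, fun q b => ⟨q, (h p a).2 b, is_r p q⟩⟩

/-- problems with countable domain and co-countable solution sets -/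
def small (s : ℕ → (ℕ → ℕ) × Option (ℕ → ℕ)) : Pb :=
  fun p => {y | (∃ e, (s e).1 = p) ∧ ∀ e, (s e).1 = p → (s e).2 ≠ some y}

theorem exists_small {f g : Pb} (h : ¬Le g f) : ∃ s, Le (small s) g ∧ ¬Le (small s) f := by
  have h1 : ∀ e : ℕ, ∃ s : (ℕ → ℕ) × Option (ℕ → ℕ), (g s.1).Nonempty ∧
      (∀ y ∈ g s.1, s.2 ≠ some y) ∧ ∀ x, Maps (U e.unpair.1) s.1 x → (f x).Nonempty →
        ∃ q ∈ f x, ∀ y, Maps (U e.unpair.2) (jn s.1 q) y → s.2 = some y := by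
    intro e
    have h1 : ¬_ := fun k => h ⟨_, _, re_U e.unpair.1, re_U e.unpair.2, k⟩
    push Not at h1
    obtain ⟨p, hp, h1⟩ := h1
    by_cases h2 : ∃ x, Maps (U e.unpair.1) p x ∧ (f x).Nonempty
    · obtain ⟨x, h2, h3⟩ := h2
      obtain ⟨q, hq, h4⟩ := h1 x h2 h3
      by_cases h5 : ∃ y, Maps (U e.unpair.2) (jn p q) y
      · obtain ⟨y, hy⟩ := h5
        exact ⟨(p, some y), hp, fun z hz e => h4 z hz (Option.some.inj e ▸ hy), fun x' a _ =>
          ⟨q, h2.uniq a ▸ hq, fun z hz => congrArg some (hy.uniq hz)⟩⟩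
      · exact ⟨(p, none), hp, by simp, fun x' a _ =>
          ⟨q, h2.uniq a ▸ hq, fun z hz => absurd ⟨z, hz⟩ h5⟩⟩
    · exact ⟨(p, none), hp, by simp, fun x a b => absurd ⟨x, a, b⟩ h2⟩
  choose s h1 h2 h3 using h1
  have h4 : ∀ e, g (s e).1 ⊆ small s (s e).1 := fun e y hy =>
    ⟨⟨e, rfl⟩, fun e' he => h2 e' y (he ▸ hy)⟩
  refine ⟨s, le_of_sub ?_, ?_⟩
  · rintro _ ⟨_, ⟨e, rfl⟩, -⟩
    exact ⟨h1 e, h4 e⟩
  · rintro ⟨A, B, a, b, c⟩
    obtain ⟨i, rfl⟩ := ex_U a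
    obtain ⟨j, rfl⟩ := ex_U b
    obtain ⟨x, c1, c2, c3⟩ := c _ ((h1 (i.pair j)).mono (h4 _))
    obtain ⟨q, hq, h5⟩ := h3 (i.pair j) x (by simpa using c1) c2
    obtain ⟨y, hy, h6⟩ := c3 q hq
    exact hy.2 _ rfl (h5 y (by simpa using h6))

theorem avoid (T : continuum.{0}.ord.ToType → (ℕ → ℕ) → ℕ → ℕ) : ∃ z : continuum.{0}.ord.ToType → ℕ → ℕ,
    ∀ a b, b < a → z a ≠ z b ∧ ∀ e, ¬Maps (U e) (T a (z b)) (z a) := by
  let z : continuum.{0}.ord.ToType → ℕ → ℕ := (wellFounded_lt (α := continuum.{0}.ord.ToType)).fix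
    fun a r => Classical.epsilon fun w => ∀ b (h : b < a), w ≠ r b h ∧ ∀ e, ¬Maps (U e) (T a (r b h)) w
  refine ⟨z, fun a => ?_⟩
  have h1 : z a = Classical.epsilon fun w => ∀ b, b < a → w ≠ z b ∧ ∀ e, ¬Maps (U e) (T a (z b)) w :=
    WellFounded.fix_eq _ _ _
  rw [h1]
  refine Classical.epsilon_spec (p := fun w => ∀ b, b < a → w ≠ z b ∧
    ∀ e, ¬Maps (U e) (T a (z b)) w) ?_
  by_contra h2
  have h3 : ∀ w : ℕ → ℕ, ∃ d : Set.Iio a × Option ℕ, (d.2 = none ∧ w = z d.1) ∨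
      ∃ e, d.2 = some e ∧ Maps (U e) (T a (z d.1)) w := by
    intro w
    by_contra h3
    exact h2 ⟨w, fun b hb => ⟨fun h => h3 ⟨(⟨b, hb⟩, none), Or.inl ⟨rfl, h⟩⟩,
      fun e h => h3 ⟨(⟨b, hb⟩, some e), Or.inr ⟨e, rfl, h⟩⟩⟩⟩
  choose d hd using h3
  have h4 := mk_le_of_injective (f := d) fun w w' h => by
    rcases hd w with ⟨a1, a2⟩ | ⟨e, a1, a2⟩ <;> rcases hd w' with ⟨b1, b2⟩ | ⟨e', b1, b2⟩ <;>
      rw [← h] at b1 b2
    · exact a2.trans b2.symm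
    · simp [a1] at b1
    · simp [a1] at b1
    · rw [a1, Option.some.injEq] at b1
      exact a2.uniq (b1 ▸ b2)
  rw [show Cardinal.mk (ℕ → ℕ) = continuum by simp, mk_prod] at h4
  refine h4.not_gt (mul_lt_of_lt aleph0_le_continuum ?_ ?_)
  · simpa using mk_Iio_ord_toType a
  · simpa using aleph0_lt_continuum

theorem transfer {α β : Type} {r : α → α → Prop} {s : β → β → Prop} (F : α → β)
    (hF : Function.Injective F) (h : ∀ a b, r a b → s (F a) (F b)) {κ : Cardinal} :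
    (∃ C : Set α, IsChain r C ∧ Cardinal.mk C = κ) → ∃ D : Set β, IsChain s D ∧ Cardinal.mk D = κ :=
  fun ⟨C, h1, h2⟩ => ⟨F '' C, h1.image_of_map_rel r s F h, (mk_image_eq hF).trans h2⟩

theorem result (κ : Cardinal) : (∃ C : Set (Quotient st), IsChain LeD C ∧ Cardinal.mk C = κ) ↔
    ∃ D : Set (Set ℝ), IsChain (· ⊆ ·) D ∧ Cardinal.mk D = κ := by
  constructor
  · obtain ⟨e⟩ : Nonempty (ℝ ≃ (ℕ → (ℕ → ℕ) × Option (ℕ → ℕ))) := Cardinal.eq.1 (by
      simp [mk_real, add_one_of_aleph0_le aleph0_le_continuum])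
    refine transfer (fun a => {r | LeD (Quotient.mk st (small (e r))) a}) ?_ ?_
    · rintro ⟨f⟩ ⟨g⟩ h
      have h1 : ∀ s, Le (small s) f ↔ Le (small s) g := fun s => by
        have := leD_mk.symm.trans ((Set.ext_iff.1 h (e.symm s)).trans leD_mk)
        rwa [e.apply_symm_apply] at this
      exact Quotient.sound ⟨not_not.1 fun k => (exists_small k).elim fun s c => c.2 ((h1 s).1 c.1),
        not_not.1 fun k => (exists_small k).elim fun s c => c.2 ((h1 s).2 c.1)⟩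
    · rintro ⟨f⟩ ⟨g⟩ h r hr
      exact leD_mk.2 ((leD_mk.1 hr).trans (leD_mk.1 h))
  · obtain ⟨e⟩ : Nonempty (ℝ ≃ continuum.{0}.ord.ToType) := Cardinal.eq.1 (by simp [mk_real])
    obtain ⟨x, hx⟩ := avoid fun _ y => y
    obtain ⟨w, hw⟩ := avoid fun a y => jn (x a) y
    have h0 : Function.Injective x := fun a b h => by
      rcases lt_trichotomy a b with k | k | k
      exacts [absurd h.symm (hx b a k).1, k, absurd h (hx a b k).1]
    let F : Set ℝ → Pb := fun A p => {y | ∃ r ∈ A, x (e r) = p ∧ w (e r) = y}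
    have h1 : ∀ A B, A ⊆ B → Le (F A) (F B) := fun A B h => le_of_sub <| by
      rintro _ ⟨_, r, hr, rfl, rfl⟩
      refine ⟨⟨_, r, h hr, rfl, rfl⟩, ?_⟩
      rintro _ ⟨r', -, k, rfl⟩
      exact ⟨r, hr, rfl, by rw [h0 k]⟩
    have h2 : ∀ A B, Le (F A) (F B) → A ⊆ B := by
      rintro A B ⟨Φ, Ψ, a, b, c⟩ r hr
      obtain ⟨i, rfl⟩ := ex_U a
      obtain ⟨j, rfl⟩ := ex_U b
      obtain ⟨_, c1, ⟨_, r', hr', rfl, rfl⟩, c3⟩ := c _ ⟨_, r, hr, rfl, rfl⟩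
      obtain ⟨_, ⟨r'', -, k, rfl⟩, c4⟩ := c3 _ ⟨r', hr', rfl, rfl⟩
      rw [h0 k] at c4
      rcases lt_trichotomy (e r) (e r') with k | k | k
      exacts [absurd c1 ((hx _ _ k).2 i), e.injective k ▸ hr', absurd c4 ((hw _ _ k).2 j)]
    exact transfer (fun A => Quotient.mk st (F A)) (fun A B h => Set.Subset.antisymm
      (h2 _ _ (Quotient.exact h).1) (h2 _ _ (Quotient.exact h).2)) fun A B h => leD_mk.2 (h1 A B h)

end Pool.Agent.Results.MP_d0967d_lc.Chains
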